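import Mathlib
import Pool.Agent.Lib.MP_f02ea4_nt.RadFinal

set_option autoImplicit false

namespace Pool.Agent.Results.MP_f02ea4_nt.RadicalBound

/-- Every odd perfect number `N` satisfies `rad(N) ^ 5 ≤ 2 ^ 49 * N ^ 3`, where `rad(N)` is the
product of the distinct primes dividing `N`; in particular `rad(N) < 892 * N ^ (3 / 5)`. -/
theorem result : ∀ N : ℕ, Odd N → Nat.Perfect N →
    (UniqueFactorizationMonoid.radical N) ^ 5 ≤ 2 ^ 49 * N ^ 3 := by
  intro N ho hN
  rw [Nat.radical_eq_prod_primeFactors]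
  exact Pool.Agent.Lib.MP_f02ea4_nt.Rad.main ho hN

end Pool.Agent.Results.MP_f02ea4_nt.RadicalBound
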