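import Mathlib
import Pool.Agent.Lib.MP_f02ea4_nt.TE.H6
import Pool.Agent.Lib.MP_f02ea4_nt.TE.J8
import Pool.Agent.Lib.MP_f02ea4_nt.TE.K6
import Pool.Agent.Lib.MP_f02ea4_nt.TE.K7

set_option autoImplicit false

namespace Pool.Agent.Results.MP_f02ea4_nt.SmallExponents

/-- Write `v_p` for the exponent of `p` in `N`. (1) For every `0 < ε ≤ 1` there is `C` such that for
every odd perfect number `N` and all `x ≥ 2`, `E ≥ 1` at most `C E e ^ (E S) x / (log x) ^ 2` prime
factors `p ≤ x` of `N` have `v_p ≤ E`, where `S ≤ log 2` is the sum of `1 / q` over the prime factors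
`q ≤ x ^ ε` of `N` with `v_q > x ^ (1 - ε)`. (2) There is `c > 0` such that for every odd perfect
number `N` with least prime factor `P`: `Ω(N) ≥ c P ^ 2`, `log N ≥ c P ^ 2 log P`, and at least
`c P / log P` prime factors `p` of `N` have `v_p ≥ c log P`. (3) For every `0 < ε ≤ 1` there are
`c > 0`, `K` such that: let `N = M B` be odd and perfect, `B ≠ 1` with least prime factor `P`, all
prime factors of `M` less than `P`, `β = σ(B)/B`. If `v_q ≤ P ^ (1 - ε)` for every prime factor `q`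
of `M` with `√(log P) < q ≤ P ^ (ε / 2)`, and `P ^ (β - 1) ≥ K`, then `Ω(B) ≥ c P ^ β` and
`log B ≥ c P ^ β log P`. -/
theorem result :
    (∀ ε : ℝ, 0 < ε → ε ≤ 1 → ∃ C : ℝ, 0 < C ∧ ∀ N : ℕ, Odd N → Nat.Perfect N →
      ∀ x E S : ℝ, 2 ≤ x → 1 ≤ E →
      S = ∑ q ∈ N.primeFactors.filter
        (fun q : ℕ => (q : ℝ) ≤ x ^ ε ∧ x ^ (1 - ε) < (N.factorization q : ℝ)), 1 / (q : ℝ) →
      S ≤ Real.log 2 ∧
      ((N.primeFactors.filter
        (fun p : ℕ => (p : ℝ) ≤ x ∧ (N.factorization p : ℝ) ≤ E)).card : ℝ) ≤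
          C * E * Real.exp (E * S) * x / (Real.log x) ^ 2) ∧
    (∃ c : ℝ, 0 < c ∧ ∀ N : ℕ, Odd N → Nat.Perfect N →
      c * (N.minFac : ℝ) ^ 2 ≤ (ArithmeticFunction.cardFactors N : ℕ) ∧
      c * (N.minFac : ℝ) ^ 2 * Real.log N.minFac ≤ Real.log N ∧
      c * (N.minFac : ℝ) / Real.log N.minFac ≤
        ((N.primeFactors.filter
          (fun p : ℕ => c * Real.log N.minFac ≤ (N.factorization p : ℝ))).card : ℝ)) ∧
    (∀ ε : ℝ, 0 < ε → ε ≤ 1 → ∃ c K : ℝ, 0 < c ∧
      ∀ N M B : ℕ, Odd N → Nat.Perfect N → N = M * B → B ≠ 1 →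
      (∀ q : ℕ, q.Prime → q ∣ M → q < B.minFac) →
      (∀ q : ℕ, q.Prime → q ∣ M → Real.log B.minFac < (q : ℝ) ^ 2 →
        (q : ℝ) ≤ (B.minFac : ℝ) ^ (ε / 2) →
        (N.factorization q : ℝ) ≤ (B.minFac : ℝ) ^ (1 - ε)) →
      ∀ β : ℝ, β = (∑ d ∈ B.divisors, (d : ℝ)) / B → K ≤ (B.minFac : ℝ) ^ (β - 1) →
        c * (B.minFac : ℝ) ^ β ≤ (ArithmeticFunction.cardFactors B : ℕ) ∧
        c * (B.minFac : ℝ) ^ β * Real.log B.minFac ≤ Real.log B) := by
  refine ⟨fun ε hε hε1 => ?_, ?_, fun ε hε hε1 => ?_⟩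
  · obtain ⟨C, hC, h⟩ := Pool.Agent.TE.thin_uniform ε hε hε1
    refine ⟨C, hC, ?_⟩
    rintro N ho hN x E S hx hE rfl
    refine ⟨Pool.Agent.TE.sum_inv_le_log_two hN _ (Finset.filter_subset _ _) fun q hq => ?_,
      h N ho hN x E hx hE⟩
    have h1 := (Finset.mem_filter.mp hq).2.2
    have h2 : (1 : ℝ) ≤ x ^ (1 - ε) := Real.one_le_rpow (by linarith) (by linarith)
    have h3 : (1 : ℝ) < (N.factorization q : ℝ) := by linarith
    exact_mod_cast h3
  · obtain ⟨c₁, hc₁, h1⟩ := Pool.Agent.TE.norton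
    obtain ⟨c₂, hc₂, h2⟩ := Pool.Agent.TE.large_exp_card
    refine ⟨min c₁ c₂, lt_min hc₁ hc₂, fun N ho hN => ?_⟩
    have hN1 : N ≠ 1 := by
      rintro rfl
      have := hN.1
      simp at this
    have hP2 : (2 : ℝ) ≤ N.minFac := by exact_mod_cast (Nat.minFac_prime hN1).two_le
    have hlog : 0 < Real.log (N.minFac : ℝ) := Real.log_pos (by linarith)
    refine ⟨le_trans ?_ (h1 N ho hN).1, le_trans ?_ (h1 N ho hN).2, ?_⟩
    · exact mul_le_mul_of_nonneg_right (min_le_left _ _) (by positivity)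
    · exact mul_le_mul_of_nonneg_right
        (mul_le_mul_of_nonneg_right (min_le_left _ _) (by positivity)) hlog.le
    · have h3 := h2 N ho hN
      have h4 : ((N.primeFactors.filter
          (fun p : ℕ => c₂ * Real.log N.minFac ≤ (N.factorization p : ℝ))).card : ℝ) ≤
          ((N.primeFactors.filter
          (fun p : ℕ => min c₁ c₂ * Real.log N.minFac ≤ (N.factorization p : ℝ))).card : ℝ) := by
        have : (N.primeFactors.filter
          (fun p : ℕ => c₂ * Real.log N.minFac ≤ (N.factorization p : ℝ))) ⊆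
          (N.primeFactors.filter
          (fun p : ℕ => min c₁ c₂ * Real.log N.minFac ≤ (N.factorization p : ℝ))) := by
          intro p hp
          rw [Finset.mem_filter] at hp ⊢
          exact ⟨hp.1, le_trans (mul_le_mul_of_nonneg_right (min_le_right _ _) hlog.le) hp.2⟩
        exact_mod_cast Finset.card_le_card this
      refine le_trans ?_ (h3.trans h4)
      gcongr
      exact min_le_right _ _
  · obtain ⟨c, K, hc, _, h⟩ := Pool.Agent.TE.rough_all ε hε hε1
    refine ⟨c, K, hc, ?_⟩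
    rintro N M B ho hN hMB hB1 hq1 hq2 β rfl hKP
    exact h N M B ho hN hMB hB1 hq1 hq2 hKP

end Pool.Agent.Results.MP_f02ea4_nt.SmallExponents
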